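import Pool.Agent.Helper51.CX.St
import Pool.Agent.Helper62.CX.Rank

set_option autoImplicit false

namespace Pool.Agent.Helper78.CX

open Pool.Agent.Helper51.CX Module

section

variable {K : Type} [Field K] [LinearOrder K] [IsStrictOrderedRing K]

/-- the rows have trivial common kernel -/
theorem rows_ker (x : Fin 6 → K) (h : ∀ k, cc K k x = 0) : x = 0 := by
  have h1 := (forall_rows (K := K) (fun c _ => c x = 0)).1 h
  obtain ⟨-, a0, a1, b0, b1, c0, c1, d0, d1, e0, e1⟩ := h1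
  rw [RX_apply] at a0 a1
  rw [RY_apply] at b0 b1
  rw [RZ_apply] at c0 c1 d0 d1 e0 e1
  have x5 : x 5 = 0 := by linarith
  have x0 : x 0 = 0 := by linarith
  have x2 : x 2 = 0 := by linarith
  have x3 : x 3 = 0 := by linarith
  have x4 : x 4 = 0 := by linarith
  have x1 : x 1 = 0 := by
    rw [x5, x2, x3, x4] at b0
    linarith
  funext i
  fin_cases i
  · exact x0
  · exact x1
  · exact x2
  · exact x3
  · exact x4
  · exact x5

/-- the sign of the row `RZ a` that can vanish on `d` -/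
theorem sign_choice (d : Fin 6 → K) (h5 : d 5 ≠ 0) (a : Fin 6) :
    ∃ s : K, ∀ t : K, (t = 1 ∨ t = -1) → RZ a t d = 0 → t = s := by
  by_cases h : RZ a 1 d = 0
  · refine ⟨1, ?_⟩
    rintro t (rfl | rfl) ht
    · rfl
    · exfalso
      rw [RZ_apply] at h ht
      apply h5
      linarith
  · refine ⟨-1, ?_⟩
    rintro t (rfl | rfl) ht
    · exact absurd ht h
    · rfl

theorem MZ_of (d : Fin 6 → K) (a : Fin 6) (t : K) (ht : t = 1 ∨ t = -1) (h : RZ a t d = 0) :
    MZ a d := by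
  rw [RZ_apply] at h
  unfold MZ
  rcases ht with rfl | rfl
  · have : d a = d 5 := by linarith
    rw [this]
  · have : d a = -d 5 := by linarith
    rw [this, abs_neg]

theorem MX_of (d : Fin 6 → K) (t : K) (ht : t = 1 ∨ t = -1) (h : RX t d = 0) :
    |d 0| = 50 * |d 5| := by
  rw [RX_apply] at h
  rcases ht with rfl | rfl
  · have : d 0 = 50 * d 5 := by linarith
    rw [this, abs_mul, abs_of_pos (show (0 : K) < 50 by norm_num)]
  · have : d 0 = -(50 * d 5) := by linarith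
    rw [this, abs_neg, abs_mul, abs_of_pos (show (0 : K) < 50 by norm_num)]

theorem MY_of (d : Fin 6 → K) (t : K) (ht : t = 1 ∨ t = -1) (h : RY t d = 0) : MY d := by
  rw [RY_apply] at h
  unfold MY
  rcases ht with rfl | rfl
  · have : d 1 - (d 2 + 3 * d 3 + 9 * d 4) = 50 * d 5 := by linarith
    rw [this, abs_mul, abs_of_pos (show (0 : K) < 50 by norm_num)]
  · have : d 1 - (d 2 + 3 * d 3 + 9 * d 4) = -(50 * d 5) := by linarith
    rw [this, abs_neg, abs_mul, abs_of_pos (show (0 : K) < 50 by norm_num)]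

theorem rc_aux (j h : ℕ) (d : Fin 6 → K)
    (hD : Pool.Agent.Helper4.CD.IsCircuit (cc K) d) (h5 : d 5 ≠ 0)
    (hV : ∀ k < 64, k ≠ j → k ≠ h → L k d ≠ 0) (hX : |d 0| ≠ 50 * |d 5|) (hY : ¬ MY d)
    (a b c : Fin 6) (habc : ∀ e : Fin 6, (e = 2 ∨ e = 3 ∨ e = 4) → e = a ∨ e = b ∨ e = c)
    (ha : ¬ MZ a d) : False := by
  obtain ⟨sb, hsb⟩ := sign_choice d h5 b
  obtain ⟨sc, hsc⟩ := sign_choice d h5 c
  have hZ : ∀ (e : Fin 6) (t : K), (e = 2 ∨ e = 3 ∨ e = 4) → (t = 1 ∨ t = -1) → RZ e t d = 0 →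
      ∀ x : Fin 6 → K, (∀ i, (![VR K j, VR K h, RZ b sb, RZ c sc] : Fin 4 → _) i x = 0) →
        RZ e t x = 0 := by
    intro e t he ht hv x hx
    rcases habc e he with rfl | rfl | rfl
    · exact absurd (MZ_of d e t ht hv) ha
    · rw [hsb t ht hv]
      exact hx 2
    · rw [hsc t ht hv]
      exact hx 3
  refine Pool.Agent.Helper62.CX.rank_lemma (cc K) d hD rows_ker 4
    (![VR K j, VR K h, RZ b sb, RZ c sc] : Fin 4 → _) ?_ ?_
  · simp
  · refine (forall_rows (K := K) (fun r _ => r d = 0 → ∀ x : Fin 6 → K,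
      (∀ i, (![VR K j, VR K h, RZ b sb, RZ c sc] : Fin 4 → _) i x = 0) → r x = 0)).2 ?_
    refine ⟨?_, ?_, ?_, ?_, ?_, ?_, ?_, ?_, ?_, ?_, ?_⟩
    · intro k hk hv x hx
      rw [VR_apply, neg_eq_zero] at hv
      by_cases h1 : k = j
      · subst h1
        exact hx 0
      · by_cases h2 : k = h
        · subst h2
          exact hx 1
        · exact absurd hv (hV k hk h1 h2)
    · intro hv
      exact absurd (MX_of d 1 (Or.inl rfl) hv) hX
    · intro hv
      exact absurd (MX_of d (-1) (Or.inr rfl) hv) hX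
    · intro hv
      exact absurd (MY_of d 1 (Or.inl rfl) hv) hY
    · intro hv
      exact absurd (MY_of d (-1) (Or.inr rfl) hv) hY
    · exact hZ 2 1 (Or.inl rfl) (Or.inl rfl)
    · exact hZ 2 (-1) (Or.inl rfl) (Or.inr rfl)
    · exact hZ 3 1 (Or.inr (Or.inl rfl)) (Or.inl rfl)
    · exact hZ 3 (-1) (Or.inr (Or.inl rfl)) (Or.inr rfl)
    · exact hZ 4 1 (Or.inr (Or.inr rfl)) (Or.inl rfl)
    · exact hZ 4 (-1) (Or.inr (Or.inr rfl)) (Or.inr rfl)

end

/-- (RC) Rank, third step. -/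
theorem hRC : StRC := by
  intro K _ _ _ j h hj hh d hD hM hY
  have h5 : d 5 ≠ 0 := by
    intro h0
    exact hM 64 (by norm_num) (by omega) (by omega) ((Mem_64 d).2 h0)
  have hX : |d 0| ≠ 50 * |d 5| := by
    intro h0
    exact hM 65 (by norm_num) (by omega) (by omega) ((Mem_65 d).2 h0)
  have hV : ∀ k < 64, k ≠ j → k ≠ h → L k d ≠ 0 := by
    intro k hk h1 h2 h0
    exact hM k (by omega) h1 h2 ((Mem_lt hk d).2 h0)
  refine ⟨?_, ?_, ?_⟩
  · by_contra ha
    exact rc_aux j h d hD h5 hV hX hY 2 3 4 (fun e he => he) ha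
  · by_contra ha
    refine rc_aux j h d hD h5 hV hX hY 3 2 4 (fun e he => ?_) ha
    tauto
  · by_contra ha
    refine rc_aux j h d hD h5 hV hX hY 4 2 3 (fun e he => ?_) ha
    tauto

end Pool.Agent.Helper78.CX
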